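import Mathlib

/-!
# A local criterion of flatness
-/

open IsLocalRing TensorProduct

namespace Pool.Agent.Hhelper7.FPure

section crit

variable {A : Type*} [CommRing A] {N : Type*} [AddCommGroup N] [Module A N]

/-- If `m ⊗ N → N` is injective, `m x ⊆ I` and `I' = I + (x)`, `x ∉ I`, then `I ⊗ N → I' ⊗ N` is
injective. -/
theorem lTensor_injective_step (m I : Ideal A)
    (hm : Function.Injective (LinearMap.lTensor N m.subtype)) (x : A)
    (hx1 : ∀ a ∈ m, a * x ∈ I) (hx2 : ∀ a, a * x ∈ I → a ∈ m) :
    Function.Injective (LinearMap.lTensor N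
      (Submodule.inclusion (le_sup_left : I ≤ I ⊔ Ideal.span {x}))) := by
  let f : m →ₗ[A] (I × A) :=
    LinearMap.prod
      { toFun := fun b => ⟨-(b.1 * x), I.neg_mem (hx1 b.1 b.2)⟩
        map_add' := fun a b => Subtype.ext (by simp; ring)
        map_smul' := fun c b => Subtype.ext (by simp; ring) }
      m.subtype
  let g : (I × A) →ₗ[A] (I ⊔ Ideal.span {x} : Ideal A) :=
    LinearMap.coprod (Submodule.inclusion le_sup_left)
      (LinearMap.toSpanSingleton A _ ⟨x, Ideal.mem_sup_right (Ideal.mem_span_singleton_self x)⟩)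
  have hfg : Function.Exact f g := by
    rintro ⟨i, a⟩
    constructor
    · intro h
      have h1 : (i : A) + a * x = 0 := congrArg Subtype.val h
      have h2 : a * x ∈ I := by
        have : a * x = -(i : A) := by linear_combination h1
        rw [this]
        exact I.neg_mem i.2
      refine ⟨⟨a, hx2 a h2⟩, ?_⟩
      refine Prod.ext (Subtype.ext ?_) rfl
      show -(a * x) = i
      linear_combination -h1
    · rintro ⟨b, hb⟩
      have h1 : i = (f b).1 := by rw [hb]
      have h2 : a = (f b).2 := by rw [hb]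
      subst h1 h2
      refine Subtype.ext ?_
      show -(b.1 * x) + b.1 * x = 0
      ring
  have hg : Function.Surjective g := by
    rintro ⟨y, hy⟩
    obtain ⟨i, hi, z, hz, rfl⟩ := Submodule.mem_sup.mp hy
    obtain ⟨a, rfl⟩ := Ideal.mem_span_singleton'.mp hz
    exact ⟨(⟨i, hi⟩, a), rfl⟩
  have hex := lTensor_exact N hfg hg
  rw [injective_iff_map_eq_zero]
  intro w hw
  have h1 : LinearMap.lTensor N g (LinearMap.lTensor N (LinearMap.inl A I A) w) = 0 := by
    rw [← LinearMap.lTensor_comp_apply]
    have : g ∘ₗ LinearMap.inl A I A = Submodule.inclusion le_sup_left := by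
      ext i
      simp [g]
    rw [this]
    exact hw
  obtain ⟨s, hs⟩ := (hex _).mp h1
  have h2 : LinearMap.lTensor N m.subtype s = 0 := by
    have h3 : LinearMap.lTensor N (LinearMap.snd A I A) (LinearMap.lTensor N f s) =
        LinearMap.lTensor N m.subtype s := by
      rw [← LinearMap.lTensor_comp_apply]
      rfl
    rw [← h3, hs, ← LinearMap.lTensor_comp_apply, LinearMap.snd_comp_inl, LinearMap.lTensor_zero,
      LinearMap.zero_apply]
  have h4 : s = 0 := hm (by rw [h2, map_zero])
  have h5 : LinearMap.lTensor N (LinearMap.fst A I A)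
      (LinearMap.lTensor N (LinearMap.inl A I A) w) = w := by
    rw [← LinearMap.lTensor_comp_apply, LinearMap.fst_comp_inl, LinearMap.lTensor_id,
      LinearMap.id_apply]
  rw [← h5, ← hs, h4, map_zero, map_zero]

/-- ideals containing a power of `m` -/
theorem lTensor_injective_of_pow_le [IsNoetherianRing A] (m : Ideal A) [m.IsMaximal]
    (hm : Function.Injective (LinearMap.lTensor N m.subtype)) (I : Ideal A) :
    ∀ k : ℕ, m ^ k ≤ I → Function.Injective (LinearMap.lTensor N I.subtype) := by
  induction I using IsNoetherian.induction with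
  | hgt I ih =>
    intro k hk
    by_cases htop : I = ⊤
    · subst htop
      have h1 : (LinearMap.lTensor N (⊤ : Ideal A).subtype) =
          (LinearEquiv.lTensor N (Submodule.topEquiv (R := A) (M := A))).toLinearMap := by
        ext
        rfl
      rw [h1]
      exact (LinearEquiv.lTensor N (Submodule.topEquiv (R := A) (M := A))).injective
    · classical
      have hex : ∃ k, m ^ k ≤ I := ⟨k, hk⟩
      have hk0 := Nat.find_spec hex
      have hk1 : Nat.find hex ≠ 0 := by
        intro h0
        rw [h0, pow_zero, Ideal.one_eq_top, top_le_iff] at hk0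
        exact htop hk0
      obtain ⟨j, hj⟩ := Nat.exists_eq_succ_of_ne_zero hk1
      have hj1 : ¬ m ^ j ≤ I := Nat.find_min hex (by omega)
      obtain ⟨x, hxm, hxI⟩ := SetLike.not_le_iff_exists.mp hj1
      rw [hj] at hk0
      have hx1 : ∀ a ∈ m, a * x ∈ I := by
        intro a ha
        apply hk0
        rw [pow_succ, mul_comm a x]
        exact Ideal.mul_mem_mul hxm ha
      have hx2 : ∀ a, a * x ∈ I → a ∈ m := by
        intro a ha
        by_contra ham
        have h1 : Ideal.span {a} ⊔ m = ⊤ := by
          have := (Ideal.isMaximal_def.mp (inferInstance : m.IsMaximal)).2 (Ideal.span {a} ⊔ m) (by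
            refine lt_of_le_of_ne le_sup_right ?_
            intro h
            apply ham
            rw [h]
            exact Ideal.mem_sup_left (Ideal.mem_span_singleton_self a))
          exact this
        obtain ⟨y, hy, z, hz, hyz⟩ := Submodule.mem_sup.mp (h1 ▸ Submodule.mem_top : (1 : A) ∈ _)
        obtain ⟨r, rfl⟩ := Ideal.mem_span_singleton'.mp hy
        apply hxI
        have h2 : x = r * (a * x) + z * x := by
          linear_combination (-x) * hyz
        rw [h2]
        exact I.add_mem (Ideal.mul_mem_left I _ ha) (hx1 z hz)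
      have hlt : I < I ⊔ Ideal.span {x} := by
        refine lt_of_le_of_ne le_sup_left ?_
        intro h
        apply hxI
        rw [h]
        exact Ideal.mem_sup_right (Ideal.mem_span_singleton_self x)
      have h1 := ih _ hlt k (hk.trans le_sup_left)
      have h2 := lTensor_injective_step m I hm x hx1 hx2
      have h3 : LinearMap.lTensor N I.subtype = LinearMap.lTensor N (I ⊔ Ideal.span {x}).subtype ∘ₗ
          LinearMap.lTensor N (Submodule.inclusion (le_sup_left : I ≤ I ⊔ Ideal.span {x})) := by
        rw [← LinearMap.lTensor_comp]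
        rfl
      rw [h3]
      exact h1.comp h2

theorem lTensor_mem_pow_smul (m I : Ideal A) (j : ℕ) (J : Ideal A) (hJ : J ≤ I)
    (hJ' : J ≤ m ^ j • I) (s : N ⊗[A] J) :
    LinearMap.lTensor N (Submodule.inclusion hJ) s ∈
      (m ^ j • (⊤ : Submodule A (N ⊗[A] I))) := by
  induction s using TensorProduct.induction_on with
  | zero => simp
  | add a b ha hb => rw [map_add]; exact Submodule.add_mem _ ha hb
  | tmul n y =>
    rw [LinearMap.lTensor_tmul]
    have key : ∀ z : A, z ∈ m ^ j • I → ∃ hz : z ∈ I,
        n ⊗ₜ[A] (⟨z, hz⟩ : I) ∈ (m ^ j • (⊤ : Submodule A (N ⊗[A] I))) := by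
      intro z hz
      refine Submodule.smul_induction_on hz ?_ ?_
      · intro r hr i hi
        refine ⟨I.smul_mem r hi, ?_⟩
        have h1 : n ⊗ₜ[A] (⟨r • i, I.smul_mem r hi⟩ : I) = r • (n ⊗ₜ[A] (⟨i, hi⟩ : I)) := by
          rw [← TensorProduct.tmul_smul]
          rfl
        rw [h1]
        exact Submodule.smul_mem_smul hr Submodule.mem_top
      · rintro a b ⟨ha, ha'⟩ ⟨hb, hb'⟩
        refine ⟨I.add_mem ha hb, ?_⟩
        have h1 : n ⊗ₜ[A] (⟨a + b, I.add_mem ha hb⟩ : I) =
            n ⊗ₜ[A] (⟨a, ha⟩ : I) + n ⊗ₜ[A] (⟨b, hb⟩ : I) := by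
          rw [← TensorProduct.tmul_add]
          rfl
        rw [h1]
        exact Submodule.add_mem _ ha' hb'
    obtain ⟨hz, h⟩ := key y.1 (hJ' y.2)
    exact h

/-- Local criterion of flatness. -/
theorem flat_of_lTensor_maximal_injective [IsNoetherianRing A] (m : Ideal A) [m.IsMaximal]
    (hm : Function.Injective (LinearMap.lTensor N m.subtype))
    (hsep : ∀ (I : Ideal A) (w : N ⊗[A] I),
      (∀ j : ℕ, w ∈ (m ^ j • (⊤ : Submodule A (N ⊗[A] I)))) → w = 0) :
    Module.Flat A N := by
  rw [Module.Flat.iff_lTensor_injective']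
  intro I
  rw [injective_iff_map_eq_zero]
  intro w hw
  obtain ⟨c, hc⟩ := Ideal.exists_pow_inf_eq_pow_smul m (M := A) I
  refine hsep I w fun j => ?_
  -- use the exponent `k = c + j`
  let M := m ^ (c + j)
  have hinj : Function.Injective (LinearMap.lTensor N (I ⊔ M).subtype) :=
    lTensor_injective_of_pow_le m hm (I ⊔ M) (c + j) le_sup_right
  have hw1 : LinearMap.lTensor N (Submodule.inclusion (le_sup_left : I ≤ I ⊔ M)) w = 0 := by
    apply hinj
    rw [map_zero, ← LinearMap.lTensor_comp_apply]
    exact hw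
  let f : (I ⊓ M : Ideal A) →ₗ[A] (I × M) :=
    LinearMap.prod (Submodule.inclusion inf_le_left) (-(Submodule.inclusion inf_le_right))
  let g : (I × M) →ₗ[A] (I ⊔ M : Ideal A) :=
    LinearMap.coprod (Submodule.inclusion le_sup_left) (Submodule.inclusion le_sup_right)
  have hfg : Function.Exact f g := by
    rintro ⟨i, a⟩
    constructor
    · intro h
      have h1 : (i : A) + a = 0 := congrArg Subtype.val h
      refine ⟨⟨i, i.2, ?_⟩, ?_⟩
      · have : (i : A) = -a := by linear_combination h1
        rw [this]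
        exact M.neg_mem a.2
      · refine Prod.ext (Subtype.ext rfl) (Subtype.ext ?_)
        show -(i : A) = a
        linear_combination -h1
    · rintro ⟨b, hb⟩
      have h1 : i = (f b).1 := by rw [hb]
      have h2 : a = (f b).2 := by rw [hb]
      subst h1 h2
      refine Subtype.ext ?_
      show (b.1 : A) + -b.1 = 0
      ring
  have hg : Function.Surjective g := by
    rintro ⟨y, hy⟩
    obtain ⟨i, hi, z, hz, rfl⟩ := Submodule.mem_sup.mp hy
    exact ⟨(⟨i, hi⟩, ⟨z, hz⟩), rfl⟩
  have hex := lTensor_exact N hfg hg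
  have h1 : LinearMap.lTensor N g (LinearMap.lTensor N (LinearMap.inl A I M) w) = 0 := by
    rw [← LinearMap.lTensor_comp_apply]
    have : g ∘ₗ LinearMap.inl A I M = Submodule.inclusion le_sup_left := by
      ext i
      simp [g]
    rw [this]
    exact hw1
  obtain ⟨s, hs⟩ := (hex _).mp h1
  have h5 : LinearMap.lTensor N (LinearMap.fst A I M)
      (LinearMap.lTensor N (LinearMap.inl A I M) w) = w := by
    rw [← LinearMap.lTensor_comp_apply, LinearMap.fst_comp_inl, LinearMap.lTensor_id,
      LinearMap.id_apply]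
  have h6 : LinearMap.lTensor N (Submodule.inclusion (inf_le_left : I ⊓ M ≤ I)) s = w := by
    rw [← h5, ← hs, ← LinearMap.lTensor_comp_apply]
    rfl
  rw [← h6]
  refine lTensor_mem_pow_smul m I j _ _ ?_ s
  have h7 := hc (c + j) (by omega)
  rw [smul_eq_mul, Ideal.mul_top, Nat.add_sub_cancel_left] at h7
  show I ⊓ m ^ (c + j) ≤ _
  rw [inf_comm, h7]
  exact Submodule.smul_mono le_rfl inf_le_right

end crit

end Pool.Agent.Hhelper7.FPure
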