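import Mathlib

/-!
# Powers of parameters and syzygies
-/

open IsLocalRing TensorProduct

namespace Pool.Agent.Hhelper7.FPure

section mono

variable {A : Type*} [CommRing A]

/-- `z` is a nonzerodivisor modulo `J`. -/
def Reg (z : A) (J : Ideal A) : Prop := ∀ a, z * a ∈ J → a ∈ J

theorem Reg.pow_mul {z : A} {J : Ideal A} (h : Reg z J) (n : ℕ) (a : A) (ha : z ^ n * a ∈ J) :
    a ∈ J := by
  induction n with
  | zero => simpa using ha
  | succ n ih => exact ih (h _ (by rwa [pow_succ', mul_assoc] at ha))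

theorem Reg.sup_pow {z w : A} {J : Ideal A} (hw : Reg w J) (hz : Reg z (J ⊔ Ideal.span {w}))
    (b : ℕ) : Reg z (J ⊔ Ideal.span {w ^ (b + 1)}) := by
  induction b with
  | zero => simpa using hz
  | succ b ih =>
    intro a ha
    have h1 : z * a ∈ J ⊔ Ideal.span {w} := by
      refine (sup_le_sup_left ?_ J) ha
      rw [Ideal.span_singleton_le_span_singleton]
      exact dvd_pow_self w (by omega)
    obtain ⟨j, hj, y, hy, rfl⟩ := Submodule.mem_sup.mp (hz a h1)
    obtain ⟨a', rfl⟩ := Ideal.mem_span_singleton'.mp hy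
    obtain ⟨j', hj', y', hy', h2⟩ := Submodule.mem_sup.mp ha
    obtain ⟨r, rfl⟩ := Ideal.mem_span_singleton'.mp hy'
    have h3 : w * (z * a' - r * w ^ (b + 1)) ∈ J := by
      have h4 : w * (z * a' - r * w ^ (b + 1)) = j' - z * j := by
        rw [pow_succ w (b + 1)] at h2
        linear_combination -h2
      rw [h4]
      exact J.sub_mem hj' (J.mul_mem_left _ hj)
    have h5 := hw _ h3
    have h6 : z * a' ∈ J ⊔ Ideal.span {w ^ (b + 1)} := by
      have h7 : z * a' = (z * a' - r * w ^ (b + 1)) + r * w ^ (b + 1) := by ring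
      rw [h7]
      exact Ideal.add_mem _ (Ideal.mem_sup_left h5)
        (Ideal.mem_sup_right (Ideal.mem_span_singleton'.mpr ⟨r, rfl⟩))
    obtain ⟨j₂, hj₂, y₂, hy₂, h8⟩ := Submodule.mem_sup.mp (ih _ h6)
    obtain ⟨r₂, rfl⟩ := Ideal.mem_span_singleton'.mp hy₂
    rw [← h8]
    have h9 : j + (j₂ + r₂ * w ^ (b + 1)) * w = (j + j₂ * w) + r₂ * w ^ (b + 1 + 1) := by ring
    rw [h9]
    exact Ideal.add_mem _ (Ideal.mem_sup_left (J.add_mem hj (J.mul_mem_right _ hj₂)))
      (Ideal.mem_sup_right (Ideal.mem_span_singleton'.mpr ⟨r₂, rfl⟩))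

variable {ι : Type*} [DecidableEq ι] (z : ι → A)

/-- the ideal generated by the `q`-th powers of the elements indexed by `S` and the elements
indexed by `T` -/
def mixed (q : ℕ) (S T : Finset ι) : Ideal A :=
  Ideal.span ((fun j => z j ^ q) '' S) ⊔ Ideal.span (z '' T)

theorem mixed_insert_left (q : ℕ) (S T : Finset ι) (k : ι) :
    mixed z q (insert k S) T = mixed z q S T ⊔ Ideal.span {z k ^ q} := by
  unfold mixed
  rw [Finset.coe_insert, Set.image_insert_eq, Ideal.span_insert]
  rw [sup_comm (Ideal.span {z k ^ q}), sup_assoc, sup_assoc, sup_comm (Ideal.span {z k ^ q})]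

theorem mixed_insert_right (q : ℕ) (S T : Finset ι) (k : ι) :
    mixed z q S (insert k T) = mixed z q S T ⊔ Ideal.span {z k} := by
  unfold mixed
  rw [Finset.coe_insert, Set.image_insert_eq, Ideal.span_insert]
  rw [sup_comm (Ideal.span {z k}), sup_assoc]

theorem reg_mixed (hreg : ∀ (S : Finset ι) (i : ι), i ∉ S → Reg (z i) (Ideal.span (z '' S)))
    (q : ℕ) (hq : 1 ≤ q) (S : Finset ι) :
    ∀ (T : Finset ι) (i : ι), i ∉ S → i ∉ T → Disjoint S T → Reg (z i) (mixed z q S T) := by
  induction S using Finset.induction_on with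
  | empty =>
    intro T i _ hiT _
    unfold mixed
    simpa using hreg T i hiT
  | insert k S hk ih =>
    intro T i hiS hiT hdis
    obtain ⟨b, rfl⟩ : ∃ b, q = b + 1 := ⟨q - 1, by omega⟩
    rw [Finset.mem_insert, not_or] at hiS
    rw [Finset.disjoint_insert_left] at hdis
    rw [mixed_insert_left]
    refine Reg.sup_pow (ih T k hk hdis.1 hdis.2) ?_ b
    rw [← mixed_insert_right]
    refine ih _ i hiS.2 ?_ ?_
    · rw [Finset.mem_insert, not_or]
      exact ⟨hiS.1, hiT⟩
    · rw [Finset.disjoint_insert_right]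
      exact ⟨hk, hdis.2⟩

/-- The monomial property. -/
theorem prod_pow_notMem (hreg : ∀ (S : Finset ι) (i : ι), i ∉ S → Reg (z i) (Ideal.span (z '' S)))
    (htop : ∀ S : Finset ι, Ideal.span (z '' S) ≠ ⊤) (q : ℕ) (S : Finset ι) :
    ∀ T : Finset ι, Disjoint S T → (∏ j ∈ S, z j ^ q) ∉ mixed z (q + 1) S T := by
  induction S using Finset.induction_on with
  | empty =>
    intro T _ h
    apply htop T
    rw [Ideal.eq_top_iff_one]
    unfold mixed at h
    simpa using h
  | insert k S hk ih =>
    intro T hdis h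
    rw [Finset.disjoint_insert_left] at hdis
    rw [mixed_insert_left, Finset.prod_insert hk] at h
    obtain ⟨j, hj, y, hy, h1⟩ := Submodule.mem_sup.mp h
    obtain ⟨r, rfl⟩ := Ideal.mem_span_singleton'.mp hy
    have h2 : z k ^ q * ((∏ j ∈ S, z j ^ q) - r * z k) ∈ mixed z (q + 1) S T := by
      have h3 : z k ^ q * ((∏ j ∈ S, z j ^ q) - r * z k) = j := by
        rw [pow_succ (z k) q] at h1
        linear_combination -h1
      rw [h3]
      exact hj
    have h4 := Reg.pow_mul (reg_mixed z hreg (q + 1) (by omega) S T k hk hdis.1 hdis.2) q _ h2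
    refine ih (insert k T) ?_ ?_
    · rw [Finset.disjoint_insert_right]
      exact ⟨hk, hdis.2⟩
    · rw [mixed_insert_right]
      have h5 : (∏ j ∈ S, z j ^ q) = ((∏ j ∈ S, z j ^ q) - r * z k) + r * z k := by ring
      rw [h5]
      exact Ideal.add_mem _ (Ideal.mem_sup_left h4)
        (Ideal.mem_sup_right (Ideal.mem_span_singleton'.mpr ⟨r, rfl⟩))

end mono

section syz

variable {A : Type*} [CommRing A] {N : Type*} [AddCommGroup N] [Module A N]

/-- the induction step: adding an element which is a nonzerodivisor on `N / J N` -/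
theorem lTensor_sup_injective (J : Ideal A) (z : A)
    (hJ : Function.Injective (LinearMap.lTensor N J.subtype))
    (hz : ∀ n : N, z • n ∈ (J • (⊤ : Submodule A N)) → n ∈ (J • (⊤ : Submodule A N))) :
    Function.Injective (LinearMap.lTensor N (J ⊔ Ideal.span {z}).subtype) := by
  let I := J ⊔ Ideal.span {z}
  let z' : I := ⟨z, Ideal.mem_sup_right (Ideal.mem_span_singleton_self z)⟩
  let ι' : J →ₗ[A] I := Submodule.inclusion le_sup_left
  -- every tensor has the form `s + n ⊗ z`
  have hform : ∀ t : N ⊗[A] I, ∃ (s : N ⊗[A] J) (n : N),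
      t = LinearMap.lTensor N ι' s + n ⊗ₜ[A] z' := by
    intro t
    induction t using TensorProduct.induction_on with
    | zero => exact ⟨0, 0, by simp⟩
    | add a b ha hb =>
      obtain ⟨s, n, rfl⟩ := ha
      obtain ⟨s', n', rfl⟩ := hb
      exact ⟨s + s', n + n', by rw [map_add, TensorProduct.add_tmul]; abel⟩
    | tmul n y =>
      obtain ⟨j, hj, w, hw, hjw⟩ := Submodule.mem_sup.mp y.2
      obtain ⟨r, rfl⟩ := Ideal.mem_span_singleton'.mp hw
      refine ⟨n ⊗ₜ[A] ⟨j, hj⟩, r • n, ?_⟩
      rw [LinearMap.lTensor_tmul, TensorProduct.smul_tmul, ← TensorProduct.tmul_add]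
      congr 1
      exact Subtype.ext hjw.symm
  let μ : N ⊗[A] A ≃ₗ[A] N := TensorProduct.rid A N
  have hμJ : ∀ s : N ⊗[A] J, μ (LinearMap.lTensor N J.subtype s) ∈ (J • (⊤ : Submodule A N)) := by
    intro s
    induction s using TensorProduct.induction_on with
    | zero => simp
    | add a b ha hb => rw [map_add, map_add]; exact Submodule.add_mem _ ha hb
    | tmul n y =>
      rw [LinearMap.lTensor_tmul, TensorProduct.rid_tmul]
      exact Submodule.smul_mem_smul y.2 Submodule.mem_top
  have hmove : ∀ n : N, n ∈ (J • (⊤ : Submodule A N)) →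
      ∃ s : N ⊗[A] J, n ⊗ₜ[A] z' = LinearMap.lTensor N ι' s := by
    intro n hn
    refine Submodule.smul_induction_on hn ?_ ?_
    · intro r hr n' _
      refine ⟨(z • n') ⊗ₜ[A] ⟨r, hr⟩, ?_⟩
      rw [LinearMap.lTensor_tmul, TensorProduct.smul_tmul, TensorProduct.smul_tmul]
      congr 1
      refine Subtype.ext ?_
      show r * z = z * r
      ring
    · rintro a b ⟨s, hs⟩ ⟨s', hs'⟩
      exact ⟨s + s', by rw [map_add, ← hs, ← hs', TensorProduct.add_tmul]⟩
  rw [injective_iff_map_eq_zero]
  intro t ht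
  obtain ⟨s, n, rfl⟩ := hform t
  have h1 : μ (LinearMap.lTensor N J.subtype s) + z • n = 0 := by
    have h2 : μ (LinearMap.lTensor N I.subtype (LinearMap.lTensor N ι' s + n ⊗ₜ[A] z')) = 0 := by
      rw [ht, map_zero]
    rw [map_add, map_add, LinearMap.lTensor_tmul, TensorProduct.rid_tmul,
      ← LinearMap.lTensor_comp_apply] at h2
    exact h2
  have h3 : z • n ∈ (J • (⊤ : Submodule A N)) := by
    have : z • n = -μ (LinearMap.lTensor N J.subtype s) := by
      rw [eq_neg_iff_add_eq_zero, add_comm]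
      exact h1
    rw [this]
    exact Submodule.neg_mem _ (hμJ s)
  obtain ⟨s', hs'⟩ := hmove n (hz n h3)
  rw [hs', ← map_add] at ht ⊢
  have h4 : LinearMap.lTensor N J.subtype (s + s') = 0 := by
    rw [← LinearMap.lTensor_comp_apply] at ht
    exact ht
  have h5 : s + s' = 0 := hJ (by rw [h4, map_zero])
  rw [h5, map_zero]

theorem lTensor_span_injective {ι : Type*} [DecidableEq ι] (z : ι → A)
    (hz : ∀ (S : Finset ι) (i : ι), i ∉ S → ∀ n : N,
      z i • n ∈ (Ideal.span (z '' S) • (⊤ : Submodule A N)) →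
      n ∈ (Ideal.span (z '' S) • (⊤ : Submodule A N))) (S : Finset ι) :
    Function.Injective (LinearMap.lTensor N (Ideal.span (z '' S)).subtype) := by
  induction S using Finset.induction_on with
  | empty =>
    rw [injective_iff_map_eq_zero]
    intro t _
    have h0 : Subsingleton (Ideal.span (z '' ((∅ : Finset ι) : Set ι))) := by
      rw [Finset.coe_empty, Set.image_empty, Ideal.span_empty]
      infer_instance
    exact Subsingleton.elim _ _
  | insert k S hk ih =>
    have h1 : Ideal.span (z '' (insert k S : Finset ι)) =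
        Ideal.span (z '' S) ⊔ Ideal.span {z k} := by
      rw [Finset.coe_insert, Set.image_insert_eq, Ideal.span_insert, sup_comm]
    rw [h1]
    exact lTensor_sup_injective _ _ ih (hz S k hk)

end syz

end Pool.Agent.Hhelper7.FPure
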