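import Mathlib

/-!
# Regular local rings: domains, parameters
-/

open IsLocalRing

namespace Pool.Agent.Hhelper7.FPure

/-- bound on the dimension by the number of generators -/
theorem ringKrullDim_le_card {A : Type*} [CommRing A] [IsLocalRing A] [IsNoetherianRing A]
    {ι : Type*} [Fintype ι] (z : ι → A) (hz : maximalIdeal A = Ideal.span (Set.range z)) :
    ringKrullDim A ≤ Fintype.card ι := by
  refine (ringKrullDim_le_spanFinrank_maximalIdeal A).trans ?_
  have h1 : (maximalIdeal A).spanFinrank ≤ (Set.range z).ncard := by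
    rw [hz]
    exact Submodule.spanFinrank_span_le_ncard_of_finite (Set.finite_range z)
  have h2 : (Set.range z).ncard ≤ Fintype.card ι := by
    classical
    rw [← Set.image_univ, ← Finset.coe_univ]
    refine (Set.ncard_image_le (Finset.finite_toSet _)).trans ?_
    rw [Set.ncard_coe_finset]
    exact le_rfl
  exact_mod_cast h1.trans h2

/-- The quotient map sends the maximal ideal to the maximal ideal. -/
theorem maximalIdeal_quotient {A : Type*} [CommRing A] [IsLocalRing A] (I : Ideal A) (hI : I ≠ ⊤)
    [IsLocalRing (A ⧸ I)] :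
    maximalIdeal (A ⧸ I) = (maximalIdeal A).map (Ideal.Quotient.mk I) := by
  have hI' : I ≤ maximalIdeal A := le_maximalIdeal hI
  refine (IsLocalRing.eq_maximalIdeal ?_).symm
  exact Ideal.IsMaximal.map_of_surjective_of_ker_le Ideal.Quotient.mk_surjective
    (by rw [Ideal.mk_ker]; exact hI')

theorem isLocalRing_quotient {A : Type*} [CommRing A] [IsLocalRing A] (I : Ideal A) (hI : I ≠ ⊤) :
    IsLocalRing (A ⧸ I) := by
  have : Nontrivial (A ⧸ I) := Ideal.Quotient.nontrivial_iff.mpr hI
  exact IsLocalRing.of_surjective' (Ideal.Quotient.mk I) Ideal.Quotient.mk_surjective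

/-- An element outside the square of the maximal ideal can replace one of the generators. -/
theorem exists_replace {A : Type*} [CommRing A] [IsLocalRing A] {n : ℕ} (z : Fin (n + 1) → A)
    (hz : maximalIdeal A = Ideal.span (Set.range z)) (x : A) (hx : x ∈ maximalIdeal A)
    (hx2 : x ∉ maximalIdeal A ^ 2) :
    ∃ i : Fin (n + 1), maximalIdeal A =
      Ideal.span {x} ⊔ Ideal.span (Set.range (fun j : Fin n => z (i.succAbove j))) := by
  rw [hz, Ideal.mem_span_range_iff_exists_fun] at hx
  obtain ⟨a, ha⟩ := hx
  have hzm : ∀ i, z i ∈ maximalIdeal A := fun i => by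
    rw [hz]
    exact Ideal.subset_span ⟨i, rfl⟩
  obtain ⟨i, hi⟩ : ∃ i, IsUnit (a i) := by
    by_contra hcon
    push Not at hcon
    apply hx2
    rw [← ha, pow_two]
    refine Ideal.sum_mem _ fun i _ => ?_
    exact Ideal.mul_mem_mul ((mem_maximalIdeal _).mpr (hcon i)) (hzm i)
  refine ⟨i, ?_⟩
  have hxm : x ∈ maximalIdeal A := by
    rw [hz, Ideal.mem_span_range_iff_exists_fun]
    exact ⟨a, ha⟩
  refine le_antisymm ?_ ?_
  · rw [hz, Ideal.span_le]
    rintro _ ⟨j, rfl⟩
    by_cases hj : j = i
    · subst hj
      rw [Fin.sum_univ_succAbove _ j] at ha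
      have h1 : a j * z j = x - ∑ i : Fin n, a (j.succAbove i) * z (j.succAbove i) := by
        rw [← ha]; ring
      obtain ⟨u, hu⟩ := hi
      have h2 : z j = ↑u⁻¹ * (x - ∑ i : Fin n, a (j.succAbove i) * z (j.succAbove i)) := by
        rw [← h1, ← hu, Units.inv_mul_cancel_left]
      rw [h2]
      refine Ideal.mul_mem_left _ _ (Ideal.sub_mem _ ?_ ?_)
      · exact Ideal.mem_sup_left (Ideal.mem_span_singleton_self x)
      · refine Ideal.sum_mem _ fun l _ => Ideal.mul_mem_left _ _ ?_
        exact Ideal.mem_sup_right (Ideal.subset_span ⟨l, rfl⟩)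
    · obtain ⟨l, rfl⟩ := Fin.exists_succAbove_eq hj
      exact Ideal.mem_sup_right (Ideal.subset_span ⟨l, rfl⟩)
  · rw [sup_le_iff, Ideal.span_le, Ideal.span_le]
    constructor
    · rintro _ rfl
      exact hxm
    · rintro _ ⟨l, rfl⟩
      exact hzm _

theorem exists_nat_dim (A : Type*) [CommRing A] [IsLocalRing A] [IsNoetherianRing A] :
    ∃ k : ℕ, ringKrullDim A = k := by
  have h2 : ringKrullDim A ≠ ⊤ := ringKrullDim_ne_top
  have h3 : ringKrullDim A ≠ ⊥ := ringKrullDim_ne_bot
  obtain ⟨k', hk'⟩ := WithBot.ne_bot_iff_exists.mp h3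
  rw [← hk'] at h2
  have h4 : k' ≠ ⊤ := fun h => h2 (by rw [h]; rfl)
  obtain ⟨k, hk⟩ := ENat.ne_top_iff_exists.mp h4
  exact ⟨k, by rw [← hk', ← hk]; rfl⟩

theorem dim_le_dim_quotient_add_card {A : Type*} [CommRing A] [IsLocalRing A] [IsNoetherianRing A]
    (I : Ideal A) (s : Finset A) (hI : I = Ideal.span (s : Set A))
    (hs : ∀ x ∈ s, x ∈ maximalIdeal A) :
    ringKrullDim A ≤ ringKrullDim (A ⧸ I) + s.card := by
  subst hI
  refine ringKrullDim_le_ringKrullDim_quotient_add_card s ?_
  intro y hy
  rw [IsLocalRing.ringJacobson_eq_maximalIdeal]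
  exact hs y hy

/-- A noetherian local ring of dimension `n` whose maximal ideal is generated by `n` elements is
a domain. -/
theorem isDomain_of_generators_fin (n : ℕ) : ∀ (A : Type*) [CommRing A] [IsLocalRing A]
    [IsNoetherianRing A] (z : Fin n → A), maximalIdeal A = Ideal.span (Set.range z) →
    ringKrullDim A = n → IsDomain A := by
  induction n with
  | zero =>
    intro A _ _ _ z hz hd
    have h1 : maximalIdeal A = ⊥ := by
      rw [hz, Set.range_eq_empty, Ideal.span_empty]
    exact (IsLocalRing.isField_iff_maximalIdeal_eq.mpr h1).isDomain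
  | succ n ih =>
    intro A _ _ _ z hz hd
    classical
    -- the maximal ideal is not minimal
    have hfin := minimalPrimes.finite_of_isNoetherianRing A
    have hmnot : ∀ P ∈ minimalPrimes A, ¬ maximalIdeal A ≤ P := by
      intro P hP hle
      have hPp : P.IsPrime := hP.1.1
      have h1 : P = maximalIdeal A := le_antisymm (le_maximalIdeal hPp.ne_top) hle
      have h2 : P.height = 0 := Ideal.height_eq_zero_iff.mpr hP
      have h3 := IsLocalRing.maximalIdeal_height_eq_ringKrullDim (R := A)
      rw [← h1, h2, hd] at h3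
      have h4 : ((0 : ℕ∞) : WithBot ℕ∞) = ((n + 1 : ℕ) : ℕ∞) := h3
      rw [WithBot.coe_inj] at h4
      have h5 : (0 : ℕ) = n + 1 := by exact_mod_cast h4
      omega
    have hm2 : ¬ maximalIdeal A ≤ maximalIdeal A ^ 2 := by
      intro hle
      have h1 : maximalIdeal A = ⊥ := by
        refine Submodule.eq_bot_of_le_smul_of_le_jacobson_bot (maximalIdeal A) _
          (IsNoetherian.noetherian _) ?_ ?_
        · rw [smul_eq_mul, ← pow_two]; exact hle
        · exact IsLocalRing.maximalIdeal_le_jacobson _
      obtain ⟨P, hP, hPle⟩ := Ideal.exists_minimalPrimes_le (I := (⊥ : Ideal A))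
        (J := maximalIdeal A) bot_le
      refine hmnot P hP ?_
      rw [h1]
      exact bot_le
    -- prime avoidance
    obtain ⟨x, hx, hx2, hxP⟩ : ∃ x ∈ maximalIdeal A, x ∉ maximalIdeal A ^ 2 ∧
        ∀ P ∈ minimalPrimes A, x ∉ P := by
      by_contra hcon
      push Not at hcon
      have hcover : ((maximalIdeal A : Ideal A) : Set A) ⊆
          ⋃ i ∈ ((insert (maximalIdeal A ^ 2) hfin.toFinset : Finset (Ideal A)) : Set (Ideal A)),
            ((id i : Ideal A) : Set A) := by
        intro x hx
        by_cases hx2 : x ∈ maximalIdeal A ^ 2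
        · exact Set.mem_biUnion (Finset.mem_coe.mpr (Finset.mem_insert_self _ _)) hx2
        · obtain ⟨P, hP, hxP⟩ := hcon x hx hx2
          exact Set.mem_biUnion (Finset.mem_coe.mpr (Finset.mem_insert_of_mem
            (hfin.mem_toFinset.mpr hP))) hxP
      rw [Ideal.subset_union_prime (maximalIdeal A ^ 2) (maximalIdeal A ^ 2)] at hcover
      · obtain ⟨P, hP, hle⟩ := hcover
        rcases Finset.mem_insert.mp hP with rfl | hP
        · exact hm2 hle
        · exact hmnot P (hfin.mem_toFinset.mp hP) hle
      · intro P hP hne _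
        rcases Finset.mem_insert.mp hP with rfl | hP
        · exact absurd rfl hne
        · exact (hfin.mem_toFinset.mp hP).1.1
    obtain ⟨i, hi⟩ := exists_replace z hz x hx hx2
    have hxne : Ideal.span {x} ≠ (⊤ : Ideal A) := by
      intro h
      have h1 : Ideal.span {x} ≤ maximalIdeal A := by
        rw [Ideal.span_le]; rintro _ rfl; exact hx
      rw [h, top_le_iff] at h1
      exact (maximalIdeal.isMaximal A).ne_top h1
    have hloc : IsLocalRing (A ⧸ Ideal.span {x}) := isLocalRing_quotient _ hxne
    have hmax : maximalIdeal (A ⧸ Ideal.span {x}) = Ideal.span (Set.range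
        (fun j : Fin n => Ideal.Quotient.mk (Ideal.span {x}) (z (i.succAbove j)))) := by
      rw [maximalIdeal_quotient _ hxne, hi, Ideal.map_sup, Ideal.map_quotient_self, bot_sup_eq,
        Ideal.map_span, ← Set.range_comp]
      rfl
    have hdim : ringKrullDim (A ⧸ Ideal.span {x}) = n := by
      refine le_antisymm ?_ ?_
      · have := ringKrullDim_le_card _ hmax
        simpa using this
      · have h1 := dim_le_dim_quotient_add_card (Ideal.span {x}) ({x} : Finset A) (by simp) (by
          intro y hy
          rw [Finset.mem_singleton] at hy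
          exact hy ▸ hx)
        obtain ⟨k, hk⟩ := exists_nat_dim (A ⧸ Ideal.span {x})
        rw [hd, hk, Finset.card_singleton] at h1
        rw [hk]
        have h5 : n + 1 ≤ k + 1 := by exact_mod_cast h1
        have h6 : n ≤ k := by omega
        exact_mod_cast h6
    have hdom : IsDomain (A ⧸ Ideal.span {x}) := ih _ _ hmax hdim
    have hprime : (Ideal.span {x} : Ideal A).IsPrime := (Ideal.Quotient.isDomain_iff_prime _).mp hdom
    obtain ⟨P, hP, hPle⟩ := Ideal.exists_minimalPrimes_le (I := (⊥ : Ideal A))
        (J := Ideal.span {x}) bot_le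
    have hPp : P.IsPrime := hP.1.1
    have hxP' : x ∉ P := hxP P hP
    have hPbot : P = ⊥ := by
      refine Submodule.eq_bot_of_le_smul_of_le_jacobson_bot (maximalIdeal A) _
        (IsNoetherian.noetherian _) ?_ (IsLocalRing.maximalIdeal_le_jacobson _)
      intro y hy
      obtain ⟨a, rfl⟩ := Ideal.mem_span_singleton'.mp (hPle hy)
      have ha : a ∈ P := (hPp.mem_or_mem hy).resolve_right hxP'
      rw [smul_eq_mul, mul_comm a x]
      exact Ideal.mul_mem_mul hx ha
    rw [hPbot] at hPp
    exact (IsDomain.of_bot_isPrime A)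

theorem isDomain_of_generators {A : Type*} [CommRing A] [IsLocalRing A] [IsNoetherianRing A]
    {ι : Type*} [Fintype ι] (z : ι → A) (hz : maximalIdeal A = Ideal.span (Set.range z))
    (hd : ringKrullDim A = Fintype.card ι) : IsDomain A := by
  let e := (Fintype.equivFin ι).symm
  refine isDomain_of_generators_fin (Fintype.card ι) A (fun i => z (e i)) ?_ hd
  rw [hz]
  congr 1
  exact (e.surjective.range_comp z).symm

section params

variable {A : Type*} [CommRing A] [IsLocalRing A] [IsNoetherianRing A] {ι : Type*} [Fintype ι]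
  (z : ι → A) (hz : maximalIdeal A = Ideal.span (Set.range z))
  (hd : ringKrullDim A = Fintype.card ι)

include hz in
theorem span_image_ne_top (S : Finset ι) : Ideal.span (z '' S) ≠ ⊤ := by
  intro h
  have h1 : Ideal.span (z '' S) ≤ maximalIdeal A := by
    rw [hz]
    exact Ideal.span_mono (Set.image_subset_range _ _)
  rw [h, top_le_iff] at h1
  exact (maximalIdeal.isMaximal A).ne_top h1

include hz in
theorem maximalIdeal_quotient_span_image (S : Finset ι)
    [IsLocalRing (A ⧸ Ideal.span (z '' S))] :
    maximalIdeal (A ⧸ Ideal.span (z '' S)) = Ideal.span (Set.range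
      (fun j : {j : ι // j ∉ S} => Ideal.Quotient.mk (Ideal.span (z '' S)) (z j))) := by
  rw [maximalIdeal_quotient _ (span_image_ne_top z hz S)]
  refine le_antisymm ?_ ?_
  · rw [hz, Ideal.map_span, Ideal.span_le]
    rintro _ ⟨_, ⟨i, rfl⟩, rfl⟩
    by_cases hi : i ∈ S
    · have : Ideal.Quotient.mk (Ideal.span (z '' S)) (z i) = 0 := by
        rw [Ideal.Quotient.eq_zero_iff_mem]
        exact Ideal.subset_span ⟨i, hi, rfl⟩
      rw [this]
      exact Ideal.zero_mem _
    · exact Ideal.subset_span ⟨⟨i, hi⟩, rfl⟩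
  · rw [Ideal.span_le]
    rintro _ ⟨⟨i, hi⟩, rfl⟩
    refine Ideal.mem_map_of_mem _ ?_
    rw [hz]
    exact Ideal.subset_span ⟨i, rfl⟩

include hz hd in
theorem dim_quotient_span_image [DecidableEq ι] (S : Finset ι) :
    ringKrullDim (A ⧸ Ideal.span (z '' S)) = Fintype.card {j : ι // j ∉ S} := by
  classical
  have hloc : IsLocalRing (A ⧸ Ideal.span (z '' S)) :=
    isLocalRing_quotient _ (span_image_ne_top z hz S)
  refine le_antisymm (ringKrullDim_le_card _ (maximalIdeal_quotient_span_image z hz S)) ?_
  have h1 := dim_le_dim_quotient_add_card (Ideal.span (z '' S)) (S.image z) (by simp) (by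
    intro y hy
    obtain ⟨i, _, rfl⟩ := Finset.mem_image.mp hy
    rw [hz]
    exact Ideal.subset_span ⟨i, rfl⟩)
  obtain ⟨k, hk⟩ := exists_nat_dim (A ⧸ Ideal.span (z '' S))
  rw [hd, hk] at h1
  rw [hk]
  have h2 : Fintype.card ι ≤ k + (S.image z).card := by exact_mod_cast h1
  have h3 : (S.image z).card ≤ S.card := Finset.card_image_le
  have h4 : Fintype.card {j : ι // j ∉ S} = Fintype.card ι - S.card := by
    rw [Fintype.card_subtype_compl, Fintype.card_coe]
  have h5 : Fintype.card {j : ι // j ∉ S} ≤ k := by omega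
  exact_mod_cast h5

include hz hd in
theorem span_image_isPrime (S : Finset ι) : (Ideal.span (z '' S)).IsPrime := by
  classical
  have hloc : IsLocalRing (A ⧸ Ideal.span (z '' S)) :=
    isLocalRing_quotient _ (span_image_ne_top z hz S)
  have := isDomain_of_generators _ (maximalIdeal_quotient_span_image z hz S)
    (dim_quotient_span_image z hz hd S)
  exact (Ideal.Quotient.isDomain_iff_prime _).mp this

include hz hd in
theorem notMem_span_image (S : Finset ι) (i : ι) (hi : i ∉ S) : z i ∉ Ideal.span (z '' S) := by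
  classical
  intro h
  have h1 : Ideal.span (z '' (insert i S : Finset ι)) = Ideal.span (z '' S) := by
    rw [Finset.coe_insert, Set.image_insert_eq, Ideal.span_insert, sup_eq_right,
      Ideal.span_singleton_le_iff_mem]
    exact h
  have h2 := dim_quotient_span_image z hz hd S
  have h3 := dim_quotient_span_image z hz hd (insert i S)
  rw [h1, h2, Fintype.card_subtype_compl, Fintype.card_subtype_compl, Fintype.card_coe,
    Fintype.card_coe, Finset.card_insert_of_notMem hi] at h3
  have h4 : Fintype.card ι - S.card = Fintype.card ι - (S.card + 1) := by exact_mod_cast h3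
  have h5 : (insert i S).card ≤ Fintype.card ι := Finset.card_le_univ _
  rw [Finset.card_insert_of_notMem hi] at h5
  omega

end params

end Pool.Agent.Hhelper7.FPure
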