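import Mathlib
import Pool.Agent.Hhelper7.FPure.RegularLocal
import Pool.Agent.Hhelper7.FPure.Criterion
import Pool.Agent.Hhelper7.FPure.Monomial

/-!
# Frobenius is flat on regular rings
-/

open IsLocalRing TensorProduct

namespace Pool.Agent.Hhelper7.FPure

theorem separated {A B : Type*} [CommRing A] [CommRing B] [Algebra A B]
    [IsLocalRing B] [IsNoetherianRing B] (m : Ideal A)
    (hloc : m ≤ (maximalIdeal B).comap (algebraMap A B)) (M : Type*) [AddCommGroup M] [Module A M]
    [Module.Finite A M] (w : B ⊗[A] M)
    (hw : ∀ j : ℕ, w ∈ (m ^ j • (⊤ : Submodule A (B ⊗[A] M)))) : w = 0 := by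
  have h1 : ∀ j : ℕ, w ∈ ((maximalIdeal B) ^ j • (⊤ : Submodule B (B ⊗[A] M))) := by
    intro j
    refine Submodule.smul_induction_on (hw j) ?_ ?_
    · intro r hr t _
      rw [← algebraMap_smul B r t]
      refine Submodule.smul_mem_smul ?_ Submodule.mem_top
      have h2 : m ^ j ≤ ((maximalIdeal B) ^ j).comap (algebraMap A B) :=
        (Ideal.pow_right_mono hloc j).trans (Ideal.le_comap_pow _ _)
      exact h2 hr
    · intro a b ha hb
      exact Submodule.add_mem _ ha hb
  have h2 := Ideal.iInf_pow_smul_eq_bot_of_isLocalRing (M := B ⊗[A] M) (maximalIdeal B)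
    (maximalIdeal.isMaximal B).ne_top
  have h3 : w ∈ (⨅ j : ℕ, (maximalIdeal B) ^ j • (⊤ : Submodule B (B ⊗[A] M))) :=
    (Submodule.mem_iInf _).mpr h1
  rw [h2] at h3
  exact (Submodule.mem_bot _).mp h3

theorem flat_of_params {A B : Type*} [CommRing A] [CommRing B] [Algebra A B]
    [IsLocalRing A] [IsNoetherianRing A] [IsLocalRing B] [IsNoetherianRing B]
    (hloc : maximalIdeal A ≤ (maximalIdeal B).comap (algebraMap A B))
    {ι : Type*} [Fintype ι] [DecidableEq ι] (z : ι → A)
    (hz : maximalIdeal A = Ideal.span (Set.range z))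
    (hreg : ∀ (S : Finset ι) (i : ι), i ∉ S →
      Reg (algebraMap A B (z i)) (Ideal.span ((fun j => algebraMap A B (z j)) '' S))) :
    Module.Flat A B := by
  have key : ∀ (S : Finset ι) (b : B), b ∈ (Ideal.span (z '' S) • (⊤ : Submodule A B)) ↔
      b ∈ Ideal.span ((fun j => algebraMap A B (z j)) '' S) := by
    intro S b
    rw [Ideal.smul_top_eq_map, Submodule.restrictScalars_mem, Ideal.map_span, ← Set.image_comp]
    rfl
  refine flat_of_lTensor_maximal_injective (maximalIdeal A) ?_ ?_
  · have h1 := lTensor_span_injective (N := B) z (fun S i hi b hb => by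
      rw [key] at hb ⊢
      rw [Algebra.smul_def] at hb
      exact hreg S i hi b hb) Finset.univ
    rw [Finset.coe_univ, Set.image_univ, ← hz] at h1
    exact h1
  · intro I w hw
    exact separated (maximalIdeal A) hloc I w hw

theorem ringHom_flat_of_params {A B : Type*} [CommRing A] [CommRing B] (f : A →+* B)
    [IsLocalRing A] [IsNoetherianRing A] [IsLocalRing B] [IsNoetherianRing B]
    (hloc : maximalIdeal A ≤ (maximalIdeal B).comap f)
    {ι : Type*} [Fintype ι] [DecidableEq ι] (z : ι → A)
    (hz : maximalIdeal A = Ideal.span (Set.range z))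
    (hreg : ∀ (S : Finset ι) (i : ι), i ∉ S →
      Reg (f (z i)) (Ideal.span ((fun j => f (z j)) '' S))) :
    f.Flat := by
  let _ := f.toAlgebra
  exact flat_of_params (A := A) (B := B) hloc z hz hreg

theorem exists_generators (A : Type*) [CommRing A] [IsRegularLocalRing A] :
    ∃ (n : ℕ) (z : Fin n → A), maximalIdeal A = Ideal.span (Set.range z) ∧
      ringKrullDim A = n := by
  classical
  have hfg : Submodule.FG (maximalIdeal A) := IsNoetherian.noetherian _
  have hfin : (maximalIdeal A).generators.Finite := Submodule.FG.finite_generators hfg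
  have hspan : Ideal.span (maximalIdeal A).generators = maximalIdeal A :=
    (maximalIdeal A).span_generators
  have hcard : (maximalIdeal A).generators.ncard = (maximalIdeal A).spanFinrank :=
    Submodule.FG.generators_ncard hfg
  let s := hfin.toFinset
  have hs : s.card = (maximalIdeal A).spanFinrank := by
    rw [← hcard, Set.ncard_eq_toFinset_card _ hfin]
  let e : Fin s.card ≃ s := s.equivFin.symm
  refine ⟨s.card, fun i => (e i : A), ?_, ?_⟩
  · have h1 : Set.range (fun i => ((e i : s) : A)) = (s : Set A) := by
      ext x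
      constructor
      · rintro ⟨i, rfl⟩
        exact (e i).2
      · intro hx
        exact ⟨e.symm ⟨x, hx⟩, by simp⟩
    rw [h1, Set.Finite.coe_toFinset, hspan]
  · rw [hs]
    exact (IsRegularLocalRing.spanFinrank_maximalIdeal (R := A)).symm

theorem reg_of_regular {A : Type*} [CommRing A] [IsLocalRing A] [IsNoetherianRing A]
    {ι : Type*} [Fintype ι] (z : ι → A)
    (hz : maximalIdeal A = Ideal.span (Set.range z)) (hd : ringKrullDim A = Fintype.card ι)
    (S : Finset ι) (i : ι) (hi : i ∉ S) : Reg (z i) (Ideal.span (z '' S)) := by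
  intro a ha
  exact ((span_image_isPrime z hz hd S).mem_or_mem ha).resolve_left (notMem_span_image z hz hd S i hi)

theorem charP_of_ringHom {A B : Type*} [CommRing A] [CommRing B] [Nontrivial B] (f : A →+* B)
    (p : ℕ) [hp : Fact p.Prime] [CharP A p] : CharP B p := by
  have h0 : (p : B) = 0 := by
    rw [← map_natCast f p, CharP.cast_eq_zero, map_zero]
  obtain ⟨q, hq⟩ := CharP.exists B
  have h1 : q ∣ p := (CharP.cast_eq_zero_iff B q p).mp h0
  rcases (Nat.dvd_prime hp.out).mp h1 with h2 | h2
  · exact absurd h2 (CharP.char_ne_one B q)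
  · exact h2 ▸ hq

/-- Frobenius is flat on regular local rings. -/
theorem flat_iterateFrobenius_local (A : Type*) [CommRing A] [IsRegularLocalRing A] (p : ℕ)
    [hp : Fact p.Prime] [CharP A p] (e : ℕ) : (iterateFrobenius A p e).Flat := by
  classical
  obtain ⟨n, z, hz, hd⟩ := exists_generators A
  have hd' : ringKrullDim A = Fintype.card (Fin n) := by rw [hd, Fintype.card_fin]
  have hreg := reg_of_regular z hz hd'
  have hpos : 1 ≤ p ^ e := Nat.one_le_pow _ _ hp.out.pos
  refine ringHom_flat_of_params _ ?_ z hz ?_
  · intro a ha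
    rw [Ideal.mem_comap, iterateFrobenius_def]
    exact Ideal.pow_mem_of_mem _ ha _ hpos
  · intro S i hi a ha
    have h1 : Ideal.span ((fun j => iterateFrobenius A p e (z j)) '' S) = mixed z (p ^ e) S ∅ := by
      unfold mixed
      simp [iterateFrobenius_def]
    rw [h1] at ha ⊢
    rw [iterateFrobenius_def] at ha
    exact Reg.pow_mul (reg_mixed z hreg (p ^ e) hpos S ∅ i hi (by simp) (by simp)) _ _ ha

/-- Frobenius is flat on regular rings. -/
theorem flat_iterateFrobenius (R : Type*) [CommRing R] [IsRegularRing R] (p : ℕ)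
    [hp : Fact p.Prime] [CharP R p] (e : ℕ) : (iterateFrobenius R p e).Flat := by
  refine RingHom.Flat.ofLocalizationPrime _ ?_
  intro J hJ
  have hpos : 1 ≤ p ^ e := Nat.one_le_pow _ _ hp.out.pos
  have hcomap : J = J.comap (iterateFrobenius R p e) := by
    ext x
    rw [Ideal.mem_comap, iterateFrobenius_def]
    exact ⟨fun h => Ideal.pow_mem_of_mem _ h _ hpos, fun h => hJ.mem_of_pow_mem _ h⟩
  have key : ∀ (I : Ideal R) [I.IsPrime] (hI : I = J.comap (iterateFrobenius R p e)),
      (Localization.localRingHom I J (iterateFrobenius R p e) hI).Flat := by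
    intro I _ hI
    have hIJ : I = J := hI.trans hcomap.symm
    subst hIJ
    have hchar : CharP (Localization.AtPrime I) p :=
      charP_of_ringHom (algebraMap R (Localization.AtPrime I)) p
    have h1 : Localization.localRingHom I I (iterateFrobenius R p e) hI =
        iterateFrobenius (Localization.AtPrime I) p e := by
      refine (Localization.localRingHom_unique _ _ _ hI ?_)
      intro x
      rw [iterateFrobenius_def, iterateFrobenius_def, map_pow]
    rw [h1]
    exact flat_iterateFrobenius_local _ p e
  exact key _ rfl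

end Pool.Agent.Hhelper7.FPure
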