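import Mathlib

/-!
# Leading monomials
-/

open IsLocalRing

namespace Pool.Agent.Hhelper7.FPure

section lead

variable {B : Type*} [CommRing B] {h : ℕ} (y : Fin h → B)

/-- a monomial -/
def mono (a : Fin h → ℕ) : B := ∏ i, y i ^ a i

theorem mono_add (a b : Fin h → ℕ) : mono y (a + b) = mono y a * mono y b := by
  unfold mono
  rw [← Finset.prod_mul_distrib]
  exact Finset.prod_congr rfl fun i _ => pow_add _ _ _

theorem mono_single (i : Fin h) : mono y (Pi.single i 1) = y i := by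
  classical
  unfold mono
  rw [Finset.prod_eq_single i]
  · simp
  · intro j _ hj
    simp [Pi.single_eq_of_ne hj]
  · simp

theorem mono_mem_pow (I : Ideal B) (hy : ∀ i, y i ∈ I) (a : Fin h → ℕ) :
    mono y a ∈ I ^ (∑ i, a i) := by
  unfold mono
  rw [← Finset.prod_pow_eq_pow_sum]
  exact Ideal.prod_mem_prod fun i _ => Ideal.pow_mem_pow (hy i) _

theorem span_pow_le (μ : ℕ) :
    Ideal.span (Set.range y) ^ μ ≤
      Ideal.span (Set.range fun a : {a : Fin h → ℕ // ∑ i, a i = μ} => mono y a.1) := by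
  induction μ with
  | zero =>
    have h1 : (1 : B) ∈ Ideal.span
        (Set.range fun a : {a : Fin h → ℕ // ∑ i, a i = 0} => mono y a.1) := by
      refine Ideal.subset_span ⟨⟨0, by simp⟩, ?_⟩
      simp [mono]
    rw [(Ideal.eq_top_iff_one _).mpr h1]
    exact le_top
  | succ μ ih =>
    rw [pow_succ]
    refine (Ideal.mul_mono_left ih).trans ?_
    rw [Ideal.span_mul_span', Ideal.span_le]
    rintro _ ⟨_, ⟨a, rfl⟩, _, ⟨i, rfl⟩, rfl⟩
    classical
    refine Ideal.subset_span ⟨⟨a.1 + Pi.single i 1, ?_⟩, ?_⟩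
    · have h2 : ∑ j, (a.1 + (Pi.single i 1 : Fin h → ℕ)) j =
          ∑ j, a.1 j + ∑ j, (Pi.single i 1 : Fin h → ℕ) j := Finset.sum_add_distrib
      rw [h2, a.2]
      simp
    · show mono y (a.1 + Pi.single i 1) = _
      rw [mono_add, mono_single]

/-- Leading term: in a local ring whose maximal ideal is generated by `y`, an element of
`m ^ μ` which is not in `m ^ (μ+1)` has, for every `q > μ`, a multiple which is congruent to a unit
times `∏ y i ^ (q-1)` modulo the `q`-th powers of the `y i`. -/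
theorem exists_leading [IsLocalRing B] (hy : maximalIdeal B = Ideal.span (Set.range y)) (c : B)
    (μ : ℕ) (h1 : c ∈ maximalIdeal B ^ μ) (h2 : c ∉ maximalIdeal B ^ (μ + 1)) (q : ℕ)
    (hq : μ < q) :
    ∃ (b : Fin h → ℕ) (u : B), IsUnit u ∧
      mono y b * c - u * ∏ i, y i ^ (q - 1) ∈ Ideal.span (Set.range fun i => y i ^ q) := by
  classical
  have hym : ∀ i, y i ∈ maximalIdeal B := fun i => by
    rw [hy]
    exact Ideal.subset_span ⟨i, rfl⟩
  have h3 : c ∈ Ideal.span
      (Set.range fun a : {a : Fin h → ℕ // ∑ i, a i = μ} => mono y a.1) := by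
    refine span_pow_le y μ ?_
    rw [← hy]
    exact h1
  obtain ⟨f, hf⟩ := Finsupp.mem_ideal_span_range_iff_exists_finsupp.mp h3
  obtain ⟨a₀, ha₀⟩ : ∃ a₀, IsUnit (f a₀) := by
    by_contra hcon
    push Not at hcon
    apply h2
    rw [← hf, pow_succ']
    refine Ideal.sum_mem _ fun a _ => ?_
    refine Ideal.mul_mem_mul ((mem_maximalIdeal _).mpr (hcon a)) ?_
    have h4 := mono_mem_pow y (maximalIdeal B) hym a.1
    rwa [a.2] at h4
  have ha₀mem : a₀ ∈ f.support := by
    rw [Finsupp.mem_support_iff]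
    intro h0
    rw [h0] at ha₀
    exact not_isUnit_zero ha₀
  have hle : ∀ i, a₀.1 i ≤ q - 1 := by
    intro i
    have h4 : a₀.1 i ≤ ∑ i, a₀.1 i := Finset.single_le_sum (fun _ _ => Nat.zero_le _)
      (Finset.mem_univ i)
    rw [a₀.2] at h4
    omega
  refine ⟨fun i => q - 1 - a₀.1 i, f a₀, ha₀, ?_⟩
  have h5 : mono y (fun i => q - 1 - a₀.1 i) * c - f a₀ * ∏ i, y i ^ (q - 1) =
      ∑ a ∈ f.support.erase a₀, f a * (mono y (fun i => q - 1 - a₀.1 i) * mono y a.1) := by
    rw [← hf, Finsupp.sum, ← Finset.add_sum_erase _ _ ha₀mem, mul_add, Finset.mul_sum]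
    have h6 : mono y (fun i => q - 1 - a₀.1 i) * mono y a₀.1 = ∏ i, y i ^ (q - 1) := by
      rw [← mono_add]
      unfold mono
      refine Finset.prod_congr rfl fun i _ => ?_
      congr 1
      have := hle i
      show q - 1 - a₀.1 i + a₀.1 i = q - 1
      omega
    have h7 : mono y (fun i => q - 1 - a₀.1 i) * (f a₀ * mono y a₀.1) =
        f a₀ * ∏ i, y i ^ (q - 1) := by
      rw [← h6]; ring
    rw [h7, add_sub_cancel_left]
    refine Finset.sum_congr rfl fun a _ => ?_
    ring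
  rw [h5]
  refine Ideal.sum_mem _ fun a ha => Ideal.mul_mem_left _ _ ?_
  have hne : a ≠ a₀ := Finset.ne_of_mem_erase ha
  obtain ⟨i, hi⟩ : ∃ i, a₀.1 i < a.1 i := by
    by_contra hcon
    push Not at hcon
    apply hne
    apply Subtype.ext
    funext i
    by_contra hi
    have h8 : a.1 i < a₀.1 i := lt_of_le_of_ne (hcon i) hi
    have h9 : ∑ i, a.1 i < ∑ i, a₀.1 i :=
      Finset.sum_lt_sum (fun i _ => hcon i) ⟨i, Finset.mem_univ i, h8⟩
    rw [a.2, a₀.2] at h9
    exact lt_irrefl _ h9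
  rw [← mono_add]
  unfold mono
  rw [← Finset.mul_prod_erase _ _ (Finset.mem_univ i)]
  refine Ideal.mul_mem_right _ _ ?_
  have h10 : q ≤ ((fun i => q - 1 - a₀.1 i) + a.1) i := by
    show q ≤ q - 1 - a₀.1 i + a.1 i
    have := hle i
    omega
  obtain ⟨r, hr⟩ := Nat.exists_eq_add_of_le h10
  rw [hr, pow_add]
  exact Ideal.mul_mem_right _ _ (Ideal.subset_span ⟨i, rfl⟩)

end lead

end Pool.Agent.Hhelper7.FPure
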