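import Mathlib
import Pool.Agent.Hhelper7.FPure.RegularLocal
import Pool.Agent.Hhelper7.FPure.Monomial
import Pool.Agent.Hhelper7.FPure.Leading
import Pool.Agent.Hhelper7.FPure.Frobenius

/-!
# Uniform bound for membership in Frobenius powers
-/

open IsLocalRing

namespace Pool.Agent.Hhelper7.FPure

section loc

variable {R : Type*} [CommRing R]

theorem exists_mul_mem_of_mem_map (P : Ideal R) [P.IsPrime] (J : Ideal R) (a : R)
    (h : algebraMap R (Localization.AtPrime P) a ∈ J.map (algebraMap R (Localization.AtPrime P))) :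
    ∃ s, s ∉ P ∧ s * a ∈ J := by
  rw [IsLocalization.mem_map_algebraMap_iff P.primeCompl] at h
  obtain ⟨⟨j, s⟩, hjs⟩ := h
  rw [← map_mul, IsLocalization.eq_iff_exists P.primeCompl] at hjs
  obtain ⟨t, ht⟩ := hjs
  refine ⟨t * s, ?_, ?_⟩
  · intro hts
    exact (Ideal.IsPrime.mem_or_mem inferInstance hts).elim t.2 s.2
  · have h1 : (t : R) * s * a = t * j := by
      rw [← ht]; ring
    rw [h1]
    exact J.mul_mem_left _ j.2

theorem exists_mul_mem_of_map_le (P : Ideal R) [hP : P.IsPrime] (I J : Ideal R)
    (hI : Submodule.FG I)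
    (h : I.map (algebraMap R (Localization.AtPrime P)) ≤
      J.map (algebraMap R (Localization.AtPrime P))) :
    ∃ s, s ∉ P ∧ ∀ a ∈ I, s * a ∈ J := by
  classical
  obtain ⟨S, hS⟩ := hI
  have h1 : ∀ a ∈ S, ∃ s, s ∉ P ∧ s * a ∈ J := by
    intro a ha
    refine exists_mul_mem_of_mem_map P J a (h (Ideal.mem_map_of_mem _ ?_))
    rw [← hS]
    exact Submodule.subset_span ha
  choose! s hsP hs using h1
  refine ⟨∏ a ∈ S, s a, ?_, ?_⟩
  · intro hmem
    obtain ⟨a, ha, ha'⟩ := (hP.prod_mem_iff).mp hmem
    exact hsP a ha ha'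
  · intro a ha
    rw [← hS] at ha
    refine Submodule.span_induction ?_ ?_ ?_ ?_ ha
    · intro x hx
      have hx' : x ∈ S := hx
      rw [← Finset.prod_erase_mul _ _ hx', mul_assoc]
      exact J.mul_mem_left _ (hs x hx')
    · simp
    · intro x y _ _ hx hy
      rw [mul_add]
      exact J.add_mem hx hy
    · intro r x _ hx
      have : (∏ a ∈ S, s a) * (r • x) = r * ((∏ a ∈ S, s a) * x) := by
        rw [smul_eq_mul]; ring
      rw [this]
      exact J.mul_mem_left _ hx

/-- parameters of a regular local ring `R_P` can be chosen in `P`. -/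
theorem exists_params (P : Ideal R) [hP : P.IsPrime] [IsRegularLocalRing (Localization.AtPrime P)] :
    ∃ (n : ℕ) (x : Fin n → R), (∀ i, x i ∈ P) ∧
      maximalIdeal (Localization.AtPrime P) =
        Ideal.span (Set.range fun i => algebraMap R (Localization.AtPrime P) (x i)) ∧
      P.height = n := by
  obtain ⟨n, z, hz, hd⟩ := exists_generators (Localization.AtPrime P)
  have h1 : ∀ i, ∃ (x : R) (s : P.primeCompl),
      z i * algebraMap R (Localization.AtPrime P) s = algebraMap R (Localization.AtPrime P) x := by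
    intro i
    obtain ⟨⟨x, s⟩, hxs⟩ := IsLocalization.surj P.primeCompl (z i)
    exact ⟨x, s, hxs⟩
  choose x s hxs using h1
  refine ⟨n, x, ?_, ?_, ?_⟩
  · intro i
    have h2 : algebraMap R (Localization.AtPrime P) (x i) ∈
        maximalIdeal (Localization.AtPrime P) := by
      rw [← hxs]
      refine Ideal.mul_mem_right _ _ ?_
      rw [hz]
      exact Ideal.subset_span ⟨i, rfl⟩
    exact (IsLocalization.AtPrime.to_map_mem_maximal_iff (Localization.AtPrime P) P (x i)).mp h2
  · rw [hz]
    refine le_antisymm ?_ ?_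
    · rw [Ideal.span_le]
      rintro _ ⟨i, rfl⟩
      have hu : IsUnit (algebraMap R (Localization.AtPrime P) (s i)) :=
        IsLocalization.map_units _ (s i)
      obtain ⟨u, hu⟩ := hu
      have h3 : z i = ↑u⁻¹ * algebraMap R (Localization.AtPrime P) (x i) := by
        rw [← hxs, ← hu, mul_comm (z i), Units.inv_mul_cancel_left]
      rw [h3]
      exact Ideal.mul_mem_left _ _ (Ideal.subset_span ⟨i, rfl⟩)
    · rw [Ideal.span_le]
      rintro _ ⟨i, rfl⟩
      show algebraMap R (Localization.AtPrime P) (x i) ∈ Ideal.span (Set.range z)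
      rw [← hxs]
      exact Ideal.mul_mem_right _ _ (Ideal.subset_span ⟨i, rfl⟩)
  · have h4 := IsLocalization.AtPrime.ringKrullDim_eq_height P (Localization.AtPrime P)
    rw [hd] at h4
    have h5 : ((n : ℕ∞) : WithBot ℕ∞) = (P.height : WithBot ℕ∞) := h4
    exact (WithBot.coe_inj.mp h5).symm

/-- heights add up at least -/
theorem height_add_height_le (P : Ideal R) [P.IsPrime] (n : ℕ) :
    ∀ Q : Ideal (R ⧸ P), Q.IsPrime → n ≤ Q.height →
      P.height + n ≤ (Q.comap (Ideal.Quotient.mk P)).height := by
  induction n with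
  | zero =>
    intro Q hQ _
    simp only [Nat.cast_zero, add_zero]
    refine Ideal.height_mono ?_
    intro a ha
    rw [Ideal.mem_comap, Ideal.Quotient.eq_zero_iff_mem.mpr ha]
    exact Q.zero_mem
  | succ n ih =>
    intro Q hQ hht
    obtain ⟨Q', hQ'p, hlt, hht'⟩ : ∃ Q' : Ideal (R ⧸ P), Q'.IsPrime ∧ Q' < Q ∧ n ≤ Q'.height := by
      by_contra hcon
      push Not at hcon
      have h1 : Q.height ≤ n := Ideal.height_le_iff.mpr hcon
      have h2 : ((n + 1 : ℕ) : ℕ∞) ≤ n := hht.trans h1
      have h3 : n + 1 ≤ n := by exact_mod_cast h2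
      omega
    have hp1 : (Q'.comap (Ideal.Quotient.mk P)).IsPrime := Ideal.IsPrime.comap _
    have hp2 : (Q.comap (Ideal.Quotient.mk P)).IsPrime := Ideal.IsPrime.comap _
    have hlt' : Q'.comap (Ideal.Quotient.mk P) < Q.comap (Ideal.Quotient.mk P) := by
      refine lt_of_le_of_ne (Ideal.comap_mono hlt.le) ?_
      intro h
      apply hlt.ne
      exact Ideal.comap_injective_of_surjective _ Ideal.Quotient.mk_surjective h
    have h1 := Ideal.height_add_one_le_of_lt_of_isPrime hlt'
    have h2 := ih Q' hQ'p hht'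
    calc P.height + ((n + 1 : ℕ) : ℕ∞) = P.height + n + 1 := by push_cast; ring
      _ ≤ (Q'.comap (Ideal.Quotient.mk P)).height + 1 := by gcongr
      _ ≤ _ := h1

end loc

section key

variable {R : Type*} [CommRing R] [IsRegularRing R] (p : ℕ) [hp : Fact p.Prime] [CharP R p]

/-- Step 3: the leading term, cleared of denominators. -/
theorem exists_leading_global (P : Ideal R) [hP : P.IsPrime] (c : R)
    (hc : algebraMap R (Localization.AtPrime P) c ≠ 0) {h : ℕ} (x : Fin h → R)
    (hx : maximalIdeal (Localization.AtPrime P) =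
        Ideal.span (Set.range fun i => algebraMap R (Localization.AtPrime P) (x i))) :
    ∃ (e : ℕ) (G s : R), s ∉ P ∧
      G * c - s * ∏ i, x i ^ (p ^ e - 1) ∈ Ideal.span (Set.range fun i => x i ^ (p ^ e)) := by
  classical
  -- the order of `c`
  have hreg : IsRegularLocalRing (Localization.AtPrime P) := inferInstance
  have hex : ∃ k, algebraMap R (Localization.AtPrime P) c ∉
      maximalIdeal (Localization.AtPrime P) ^ k := by
    by_contra hcon
    push Not at hcon
    have h1 : algebraMap R (Localization.AtPrime P) c ∈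
        (⨅ k : ℕ, maximalIdeal (Localization.AtPrime P) ^ k) := (Submodule.mem_iInf _).mpr hcon
    rw [Ideal.iInf_pow_eq_bot_of_isLocalRing _
      (maximalIdeal.isMaximal (Localization.AtPrime P)).ne_top] at h1
    exact hc ((Submodule.mem_bot _).mp h1)
  have hk0 := Nat.find_spec hex
  have hk1 : Nat.find hex ≠ 0 := by
    intro h0
    rw [h0, pow_zero, Ideal.one_eq_top] at hk0
    exact hk0 Submodule.mem_top
  obtain ⟨μ, hμ⟩ := Nat.exists_eq_succ_of_ne_zero hk1
  have hμ1 : algebraMap R (Localization.AtPrime P) c ∈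
      maximalIdeal (Localization.AtPrime P) ^ μ := by
    by_contra hcon
    have := Nat.find_min' hex hcon
    omega
  rw [hμ] at hk0
  have hq : μ < p ^ μ := Nat.lt_pow_self hp.out.one_lt
  obtain ⟨b, u, hu, hmem⟩ := exists_leading
    (fun i => algebraMap R (Localization.AtPrime P) (x i)) hx _ μ hμ1 hk0 (p ^ μ) hq
  -- clear denominators
  obtain ⟨⟨u₁, u₂⟩, hu12⟩ := IsLocalization.surj P.primeCompl u
  simp only at hu12
  have hu₁ : u₁ ∉ P := by
    have h1 : IsUnit (algebraMap R (Localization.AtPrime P) u₁) := by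
      rw [← hu12]
      exact hu.mul (IsLocalization.map_units _ u₂)
    intro h2
    have h3 := (IsLocalization.AtPrime.to_map_mem_maximal_iff (Localization.AtPrime P) P u₁).mpr h2
    exact (mem_maximalIdeal _).mp h3 h1
  have h4 : algebraMap R (Localization.AtPrime P)
      ((u₂ : R) * mono x b * c - u₁ * ∏ i, x i ^ (p ^ μ - 1)) ∈
      (Ideal.span (Set.range fun i => x i ^ (p ^ μ))).map
        (algebraMap R (Localization.AtPrime P)) := by
    have h5 : algebraMap R (Localization.AtPrime P)
        ((u₂ : R) * mono x b * c - u₁ * ∏ i, x i ^ (p ^ μ - 1)) =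
        algebraMap R (Localization.AtPrime P) u₂ *
        (mono (fun i => algebraMap R (Localization.AtPrime P) (x i)) b *
          algebraMap R (Localization.AtPrime P) c -
          u * ∏ i, (algebraMap R (Localization.AtPrime P) (x i)) ^ (p ^ μ - 1)) := by
      have h6 : mono (fun i => algebraMap R (Localization.AtPrime P) (x i)) b =
          algebraMap R (Localization.AtPrime P) (mono x b) := by
        unfold mono
        rw [map_prod]
        exact Finset.prod_congr rfl fun i _ => (map_pow _ _ _).symm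
      rw [h6, map_sub, map_mul, map_mul, map_mul, ← hu12, map_prod]
      simp only [map_pow]
      ring
    rw [h5]
    refine Ideal.mul_mem_left _ _ ?_
    rw [Ideal.map_span, ← Set.range_comp]
    simp only [Function.comp_def, map_pow]
    exact hmem
  obtain ⟨t, ht, h7⟩ := exists_mul_mem_of_mem_map P _ _ h4
  refine ⟨μ, t * ((u₂ : R) * mono x b), t * u₁, ?_, ?_⟩
  · intro h8
    exact (hP.mem_or_mem h8).elim ht hu₁
  · have h9 : t * ((u₂ : R) * mono x b) * c - t * u₁ * ∏ i, x i ^ (p ^ μ - 1) =
        t * ((u₂ : R) * mono x b * c - u₁ * ∏ i, x i ^ (p ^ μ - 1)) := by ring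
    rw [h9]
    exact h7

/-- The key lemma. -/
theorem key_lemma (P : Ideal R) [hP : P.IsPrime] (c : R)
    (hc : algebraMap R (Localization.AtPrime P) c ≠ 0) (g : R) (hg : g ∉ P)
    (hJ : ∀ (Q : Ideal (R ⧸ P)) [Q.IsPrime], Ideal.Quotient.mk P g ∉ Q →
      IsRegularLocalRing (Localization.AtPrime Q)) :
    ∃ f, f ∉ P ∧ ∃ e : ℕ, ∀ m : Ideal R, m.IsPrime → P ≤ m → f ∉ m →
      c ∉ m.map (iterateFrobenius R p e) := by
  classical
  obtain ⟨h, x, hxP, hx, hht⟩ := exists_params P
  -- the element `f₀`
  obtain ⟨f₀, hf₀, hf₀'⟩ := exists_mul_mem_of_map_le P P (Ideal.span (Set.range x))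
    (IsNoetherian.noetherian _) (by
      rw [Localization.AtPrime.map_eq_maximalIdeal, hx, Ideal.map_span, ← Set.range_comp]
      rfl)
  obtain ⟨e, G, s, hs, hGs⟩ := exists_leading_global p P c hc x hx
  refine ⟨f₀ * g * s, ?_, e, ?_⟩
  · intro h1
    rcases hP.mem_or_mem h1 with h2 | h2
    · exact (hP.mem_or_mem h2).elim hf₀ hg
    · exact hs h2
  intro m hm hPm hfm hcm
  have hf₀m : f₀ ∉ m := fun h1 => hfm (m.mul_mem_right _ (m.mul_mem_right _ h1))
  have hgm : g ∉ m := fun h1 => hfm (m.mul_mem_right _ (m.mul_mem_left _ h1))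
  have hsm : s ∉ m := fun h1 => hfm (m.mul_mem_left _ h1)
  -- the quotient
  let Q : Ideal (R ⧸ P) := m.map (Ideal.Quotient.mk P)
  have hQp : Q.IsPrime := Ideal.isPrime_map_quotientMk_of_isPrime hPm
  have hQm : Q.comap (Ideal.Quotient.mk P) = m := by
    rw [Ideal.comap_map_of_surjective _ Ideal.Quotient.mk_surjective, ← RingHom.ker_eq_comap_bot,
      Ideal.mk_ker, sup_eq_left]
    exact hPm
  have hgQ : Ideal.Quotient.mk P g ∉ Q := by
    intro h1
    apply hgm
    rw [← hQm]
    exact h1
  have hreg : IsRegularLocalRing (Localization.AtPrime Q) := hJ Q hgQ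
  obtain ⟨r, y', hy'Q, hy', hhtQ⟩ := exists_params Q
  have hlift : ∀ j, ∃ y : R, Ideal.Quotient.mk P y = y' j := fun j =>
    Ideal.Quotient.mk_surjective _
  choose y hy using hlift
  have hym : ∀ j, y j ∈ m := by
    intro j
    rw [← hQm, Ideal.mem_comap, hy]
    exact hy'Q j
  let A := Localization.AtPrime m
  let z : Fin h ⊕ Fin r → A := Sum.elim (fun i => algebraMap R A (x i)) (fun j => algebraMap R A (y j))
  have hxz : ∀ i, algebraMap R A (x i) ∈ Ideal.span (Set.range z) := fun i =>
    Ideal.subset_span ⟨Sum.inl i, rfl⟩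
  have hyz : ∀ j, algebraMap R A (y j) ∈ Ideal.span (Set.range z) := fun j =>
    Ideal.subset_span ⟨Sum.inr j, rfl⟩
  have hmaxA : maximalIdeal A = Ideal.span (Set.range z) := by
    refine le_antisymm ?_ ?_
    · rw [← Localization.AtPrime.map_eq_maximalIdeal, Ideal.map_le_iff_le_comap]
      intro a ha
      rw [Ideal.mem_comap]
      have h1 : algebraMap (R ⧸ P) (Localization.AtPrime Q) (Ideal.Quotient.mk P a) ∈
          (Ideal.span (Set.range y')).map (algebraMap (R ⧸ P) (Localization.AtPrime Q)) := by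
        rw [Ideal.map_span, ← Set.range_comp]
        have h2 : algebraMap (R ⧸ P) (Localization.AtPrime Q) (Ideal.Quotient.mk P a) ∈
            maximalIdeal (Localization.AtPrime Q) :=
          (IsLocalization.AtPrime.to_map_mem_maximal_iff (Localization.AtPrime Q) Q _).mpr
            (Ideal.mem_map_of_mem _ ha)
        rw [hy'] at h2
        exact h2
      obtain ⟨t', ht', h3⟩ := exists_mul_mem_of_mem_map Q _ _ h1
      obtain ⟨t, rfl⟩ := Ideal.Quotient.mk_surjective t'
      have htm : t ∉ m := by
        intro h4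
        exact ht' (Ideal.mem_map_of_mem _ h4)
      have h5 : t * a ∈ Ideal.span (Set.range y) ⊔ P := by
        have h6 : Ideal.span (Set.range y') =
            (Ideal.span (Set.range y)).map (Ideal.Quotient.mk P) := by
          rw [Ideal.map_span, ← Set.range_comp]
          congr 2
          funext j
          exact (hy j).symm
        rw [← map_mul, h6, ← Ideal.mem_comap,
          Ideal.comap_map_of_surjective _ Ideal.Quotient.mk_surjective,
          ← RingHom.ker_eq_comap_bot, Ideal.mk_ker] at h3
        exact h3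
      obtain ⟨b, hb, d, hd, hbd⟩ := Submodule.mem_sup.mp h5
      have h7 : algebraMap R A (f₀ * t * a) ∈ Ideal.span (Set.range z) := by
        have h8 : f₀ * t * a = f₀ * b + f₀ * d := by
          rw [mul_assoc, ← hbd]; ring
        rw [h8, map_add, map_mul]
        refine Ideal.add_mem _ (Ideal.mul_mem_left _ _ ?_) ?_
        · have h9 : Ideal.span (Set.range y) ≤ (Ideal.span (Set.range z)).comap (algebraMap R A) := by
            rw [Ideal.span_le]
            rintro _ ⟨j, rfl⟩
            exact hyz j
          exact h9 hb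
        · have h9 : Ideal.span (Set.range x) ≤ (Ideal.span (Set.range z)).comap (algebraMap R A) := by
            rw [Ideal.span_le]
            rintro _ ⟨j, rfl⟩
            exact hxz j
          exact h9 (hf₀' d hd)
      have hunit : IsUnit (algebraMap R A (f₀ * t)) := by
        refine IsLocalization.map_units A (⟨f₀ * t, ?_⟩ : m.primeCompl)
        intro h10
        exact (hm.mem_or_mem h10).elim hf₀m htm
      rw [map_mul] at h7
      exact (Ideal.unit_mul_mem_iff_mem _ hunit).mp h7
    · rw [Ideal.span_le]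
      rintro _ ⟨i | j, rfl⟩
      · exact (IsLocalization.AtPrime.to_map_mem_maximal_iff A m _).mpr (hPm (hxP i))
      · exact (IsLocalization.AtPrime.to_map_mem_maximal_iff A m _).mpr (hym j)
  have hdimA : ringKrullDim A = Fintype.card (Fin h ⊕ Fin r) := by
    refine le_antisymm (ringKrullDim_le_card z hmaxA) ?_
    rw [IsLocalization.AtPrime.ringKrullDim_eq_height m A]
    have h1 := height_add_height_le P r Q hQp (by rw [hhtQ])
    rw [hQm, hht] at h1
    rw [Fintype.card_sum, Fintype.card_fin, Fintype.card_fin]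
    exact_mod_cast h1
  -- the element `c` lies in the ideal of `q`-th powers
  let q := p ^ e
  have hq1 : 1 ≤ q := Nat.one_le_pow _ _ hp.out.pos
  have hpow : m.map (iterateFrobenius R p e) ≤
      (Ideal.span (Set.range fun i => z i ^ q)).comap (algebraMap R A) := by
    rw [Ideal.map_le_iff_le_comap]
    intro a ha
    rw [Ideal.mem_comap, Ideal.mem_comap, iterateFrobenius_def, map_pow]
    have h1 : algebraMap R A a ∈ Ideal.span (Set.range z) := by
      rw [← hmaxA]
      exact (IsLocalization.AtPrime.to_map_mem_maximal_iff A m _).mpr ha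
    have hchar : CharP A p := charP_of_ringHom (algebraMap R A) p
    have h2 := Ideal.mem_map_of_mem (iterateFrobenius A p e) h1
    rw [Ideal.map_span, ← Set.range_comp, iterateFrobenius_def] at h2
    simpa only [Function.comp_def, iterateFrobenius_def] using h2
  have hcA : algebraMap R A c ∈ Ideal.span (Set.range fun i => z i ^ q) := hpow hcm
  have hsA : algebraMap R A (s * ∏ i, x i ^ (q - 1)) ∈ Ideal.span (Set.range fun i => z i ^ q) := by
    have h1 : s * ∏ i, x i ^ (q - 1) = G * c - (G * c - s * ∏ i, x i ^ (q - 1)) := by ring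
    rw [h1, map_sub, map_mul]
    refine Ideal.sub_mem _ (Ideal.mul_mem_left _ _ hcA) ?_
    have h2 : Ideal.span (Set.range fun i => x i ^ q) ≤
        (Ideal.span (Set.range fun i => z i ^ q)).comap (algebraMap R A) := by
      rw [Ideal.span_le]
      rintro _ ⟨i, rfl⟩
      show algebraMap R A (x i ^ q) ∈ Ideal.span (Set.range fun i => z i ^ q)
      rw [map_pow]
      exact Ideal.subset_span ⟨Sum.inl i, rfl⟩
    exact h2 hGs
  have hsunit : IsUnit (algebraMap R A s) := IsLocalization.map_units A (⟨s, hsm⟩ : m.primeCompl)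
  rw [map_mul] at hsA
  have h1 := (Ideal.unit_mul_mem_iff_mem _ hsunit).mp hsA
  have h2 : (∏ j : Fin h ⊕ Fin r, z j ^ (q - 1)) ∈ Ideal.span (Set.range fun i => z i ^ q) := by
    rw [Fintype.prod_sum_type]
    refine Ideal.mul_mem_right _ _ ?_
    rw [map_prod] at h1
    simp only [map_pow] at h1
    exact h1
  have h3 := prod_pow_notMem z (fun S i hi => reg_of_regular z hmaxA hdimA S i hi)
    (fun S => span_image_ne_top z hmaxA S) (q - 1) Finset.univ ∅ (by simp)
  apply h3
  unfold mixed
  rw [Nat.sub_add_cancel hq1, Finset.coe_univ, Set.image_univ]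
  exact Ideal.mem_sup_left h2

theorem map_iterateFrobenius_anti (m : Ideal R) {e e' : ℕ} (h : e ≤ e') :
    m.map (iterateFrobenius R p e') ≤ m.map (iterateFrobenius R p e) := by
  rw [Ideal.map_le_iff_le_comap]
  intro a ha
  obtain ⟨k, rfl⟩ := Nat.exists_eq_add_of_le h
  rw [Ideal.mem_comap, iterateFrobenius_def]
  have h1 : a ^ p ^ (e + k) = iterateFrobenius R p e (a ^ p ^ k) := by
    rw [iterateFrobenius_def, ← pow_mul, ← pow_add, add_comm]
  rw [h1]
  exact Ideal.mem_map_of_mem _ (Ideal.pow_mem_of_mem _ ha _ (Nat.pow_pos hp.out.pos))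

/-- Uniform bound. -/
theorem exists_uniform (c : R)
    (hc : ∀ (P : Ideal R) [P.IsPrime], algebraMap R (Localization.AtPrime P) c ≠ 0)
    (hJ : ∀ (P : Ideal R) [P.IsPrime], ∃ g, g ∉ P ∧
      ∀ (Q : Ideal (R ⧸ P)) [Q.IsPrime], Ideal.Quotient.mk P g ∉ Q →
        IsRegularLocalRing (Localization.AtPrime Q)) (I : Ideal R) :
    ∃ e : ℕ, ∀ m : Ideal R, m.IsPrime → I ≤ m → c ∉ m.map (iterateFrobenius R p e) := by
  induction I using IsNoetherian.induction with
  | hgt I ih =>
    by_cases htop : I = ⊤
    · refine ⟨0, fun m hm hIm => ?_⟩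
      rw [htop, top_le_iff] at hIm
      exact absurd hIm hm.ne_top
    by_cases hprime : Ideal.IsPrime I
    · obtain ⟨g, hg, hg'⟩ := hJ I
      obtain ⟨f, hf, e₁, he₁⟩ := key_lemma p I c (hc I) g hg hg'
      have hlt : I < I ⊔ Ideal.span {f} := by
        refine lt_of_le_of_ne le_sup_left ?_
        intro h
        apply hf
        rw [h]
        exact Ideal.mem_sup_right (Ideal.mem_span_singleton_self f)
      obtain ⟨e₂, he₂⟩ := ih _ hlt
      refine ⟨max e₁ e₂, fun m hm hIm hcm => ?_⟩
      by_cases hfm : f ∈ m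
      · refine he₂ m hm ?_ (map_iterateFrobenius_anti p m (le_max_right _ _) hcm)
        rw [sup_le_iff, Ideal.span_singleton_le_iff_mem]
        exact ⟨hIm, hfm⟩
      · exact he₁ m hm hIm hfm (map_iterateFrobenius_anti p m (le_max_left _ _) hcm)
    · obtain ⟨a, b, hab, ha, hb⟩ : ∃ a b, a * b ∈ I ∧ a ∉ I ∧ b ∉ I := by
        by_contra hcon
        push Not at hcon
        exact hprime ⟨htop, fun {x y} hxy => by
          by_contra h
          push Not at h
          exact h.2 (hcon x y hxy h.1)⟩
      have hlt : ∀ f, f ∉ I → I < I ⊔ Ideal.span {f} := by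
        intro f hf
        refine lt_of_le_of_ne le_sup_left ?_
        intro h
        apply hf
        rw [h]
        exact Ideal.mem_sup_right (Ideal.mem_span_singleton_self f)
      obtain ⟨e₁, he₁⟩ := ih _ (hlt a ha)
      obtain ⟨e₂, he₂⟩ := ih _ (hlt b hb)
      refine ⟨max e₁ e₂, fun m hm hIm hcm => ?_⟩
      rcases hm.mem_or_mem (hIm hab) with h | h
      · refine he₁ m hm ?_ (map_iterateFrobenius_anti p m (le_max_left _ _) hcm)
        rw [sup_le_iff, Ideal.span_singleton_le_iff_mem]
        exact ⟨hIm, h⟩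
      · refine he₂ m hm ?_ (map_iterateFrobenius_anti p m (le_max_right _ _) hcm)
        rw [sup_le_iff, Ideal.span_singleton_le_iff_mem]
        exact ⟨hIm, h⟩

omit [IsRegularRing R] in
/-- An element in no minimal prime is nonzero in all localizations which are domains. -/
theorem algebraMap_ne_zero_of_notMem (P : Ideal R) [hP : P.IsPrime]
    [IsRegularLocalRing (Localization.AtPrime P)] (c : R)
    (hc : ∀ P ∈ minimalPrimes R, c ∉ P) : algebraMap R (Localization.AtPrime P) c ≠ 0 := by
  obtain ⟨n, z, hz, hd⟩ := exists_generators (Localization.AtPrime P)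
  have hdom : IsDomain (Localization.AtPrime P) :=
    isDomain_of_generators z hz (by rw [hd, Fintype.card_fin])
  let N : Ideal R := RingHom.ker (algebraMap R (Localization.AtPrime P))
  have hN : N.IsPrime := RingHom.ker_isPrime _
  obtain ⟨P₀, hP₀, hle⟩ := Ideal.exists_minimalPrimes_le (I := (⊥ : Ideal R)) (J := N) bot_le
  intro h0
  apply hc P₀ hP₀
  have hNP : N ≤ P := by
    intro a ha
    by_contra haP
    have h1 : IsUnit (algebraMap R (Localization.AtPrime P) a) :=
      IsLocalization.map_units _ (⟨a, haP⟩ : P.primeCompl)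
    rw [RingHom.mem_ker.mp ha] at h1
    exact not_isUnit_zero h1
  have h2 : algebraMap R (Localization.AtPrime P) c = algebraMap R (Localization.AtPrime P) 0 := by
    rw [h0, map_zero]
  rw [IsLocalization.eq_iff_exists P.primeCompl] at h2
  obtain ⟨t, ht⟩ := h2
  rw [mul_zero] at ht
  have hPp : P₀.IsPrime := hP₀.1.1
  have h3 : (t : R) * c ∈ P₀ := by
    rw [ht]
    exact P₀.zero_mem
  exact (hPp.mem_or_mem h3).resolve_left fun h4 => t.2 (hNP (hle h4))

end key

end Pool.Agent.Hhelper7.FPure
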